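import Mathlib
import Pool.Agent.H509R3.TraceObs
import Pool.Agent.H509R3.TraceAdm
import Pool.Agent.H509R3.CFDim

/-!
# MP_f5ee21_nt, Q2: no lower bound for the multiplicities of admissible traces
-/

set_option autoImplicit false

namespace Pool.Agent.Results.MP_f5ee21_nt.MultiplicityFails

open Filter Topology

/-- The Cantor set of the reals `[a₀, a₁, a₂, …]` with all `aⱼ` in `A`. -/
def cantor (A : Finset ℕ) : Set ℝ :=
  {x : ℝ | ∃ a : ℕ → ℕ, (∀ j, a j ∈ A) ∧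
          Tendsto (fun n : ℕ =>
            ((List.map (fun j : ℕ => (!![(a j : ℝ), 1; 1, 0] : Matrix (Fin 2) (Fin 2) ℝ))
                (List.range (n + 1))).prod 0 0) /
            ((List.map (fun j : ℕ => (!![(a j : ℝ), 1; 1, 0] : Matrix (Fin 2) (Fin 2) ℝ))
                (List.range (n + 1))).prod 1 0)) atTop (𝓝 x)}

/-- The semigroup `Γ_A` of the products of even (positive) length of the matrices
`(b, 1; 1, 0)`, `b ∈ A`. -/
def Gam (A : Finset ℕ) : Set (Matrix (Fin 2) (Fin 2) ℤ) :=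
  {M | ∃ l : List ℕ, l ≠ [] ∧ Even l.length ∧ (∀ b ∈ l, b ∈ A) ∧
    M = (List.map (fun b : ℕ => (!![(b : ℤ), 1; 1, 0] : Matrix (Fin 2) (Fin 2) ℤ)) l).prod}

/-- Admissible integers. -/
def Admissible (A : Finset ℕ) (t : ℤ) : Prop :=
  ∀ q : ℤ, 1 ≤ q → ∃ M ∈ Gam A, M.trace ≡ t [ZMOD q]

/-- The multiplicity `𝓜_A(t)`. -/
noncomputable def mult (A : Finset ℕ) (t : ℤ) : ℕ∞ := {M | M ∈ Gam A ∧ M.trace = t}.encard

/-- There is an alphabet `A` with `δ_A > 1/2` for which arbitrarily large admissible `t` have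
multiplicity `0`, so the lower bound `N^(2 δ_A - 1 - ε) < 𝓜_A(t)` fails for every `ε`. -/
theorem result :
    ¬ (∀ A : Finset ℕ, (∀ a ∈ A, 1 ≤ a) → 2 ≤ A.card → (1 / 2 : ENNReal) < dimH (cantor A) →
      ∀ ε : ℝ, 0 < ε → ∃ N₀ : ℕ, ∀ N : ℕ, N₀ ≤ N → ∀ t : ℤ, (N : ℤ) ≤ t → t < 2 * N →
        Admissible A t →
        ENNReal.ofReal ((N : ℝ) ^ (2 * (dimH (cantor A)).toReal - 1 - ε)) < (mult A t : ENNReal)) := by
  intro H
  obtain ⟨K, hK, hdim⟩ := Pool.Agent.H509R3.exists_dim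
  set A : Finset ℕ := (Finset.range K).image (fun i => 8 * i + 9) with hA
  have h9 : 9 ∈ A := Finset.mem_image.mpr ⟨0, Finset.mem_range.mpr (by omega), rfl⟩
  have h17 : 17 ∈ A := Finset.mem_image.mpr ⟨1, Finset.mem_range.mpr (by omega), rfl⟩
  obtain ⟨N₀, hN⟩ := H A (by
      intro a ha
      obtain ⟨i, _, rfl⟩ := Finset.mem_image.mp ha
      omega) (by
      rw [Finset.card_image_of_injective _ (fun a b h => by simpa using h), Finset.card_range]
      exact hK) hdim 1 one_pos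
  obtain ⟨k, hk⟩ := pow_unbounded_of_one_lt ((N₀ : ℤ) + 2) (by norm_num : (1 : ℤ) < 5)
  have h1 : (1 : ℤ) ≤ 5 ^ k := one_le_pow₀ (by norm_num)
  have hk2 : (N₀ : ℤ) ≤ (5 ^ k) ^ 2 - 2 := by nlinarith
  have hk3 : (0 : ℤ) < (5 ^ k) ^ 2 - 2 := by nlinarith
  have hadm : Admissible A ((5 ^ k) ^ 2 - 2) := by
    intro q hq
    obtain ⟨l, h1, h2, h3, h4⟩ := Pool.Agent.H509R3.admissible k q hq
    refine ⟨_, ⟨l, h1, h2, ?_, rfl⟩, h4⟩
    intro b hb
    rcases h3 b hb with h | h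
    · rw [h]; exact h9
    · rw [h]; exact h17
  have h2 := hN ((((5 : ℤ) ^ k) ^ 2 - 2).toNat) (by omega) ((5 ^ k) ^ 2 - 2) (by omega) (by omega) hadm
  have h0 : mult A ((5 ^ k) ^ 2 - 2) = 0 := by
    rw [mult, Set.encard_eq_zero, Set.eq_empty_iff_forall_notMem]
    rintro M ⟨⟨l, _, hev, hmem, rfl⟩, htr⟩
    exact Pool.Agent.H509R3.no_trace l (by
      intro b hb
      obtain ⟨i, _, rfl⟩ := Finset.mem_image.mp (hmem b hb)
      omega) hev k htr
  rw [h0] at h2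
  simp at h2

end Pool.Agent.Results.MP_f5ee21_nt.MultiplicityFails
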